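import Pool.Agent.Lib_helper13.Robin.W.LA
import Pool.Agent.Lib_helper13.Robin.W.NL
import Pool.Agent.Lib_helper13.Robin.W.PL
import Pool.Agent.Lib_helper13.Robin.W.WE

/-!
# Robin project, block RE: even reflection across a facet
-/

namespace Pool.Agent.Lib_helper47.Robin

open MeasureTheory Set Metric Filter Topology
open scoped RealInnerProductSpace ContDiff
open Pool.Agent.Lib_helper13.Robin

noncomputable section

variable {d m : ℕ} {P : PD d m}

/-! ### The reflection -/

theorem re_inner_self (i : Fin m) : ⟪P.ν i, P.ν i⟫ = (1 : ℝ) := by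
  rw [real_inner_self_eq_norm_sq, P.unit]; norm_num

theorem re_s_refl (i : Fin m) (x : E d) :
    P.b i - ⟪P.ν i, P.refl i x⟫ = -(P.b i - ⟪P.ν i, x⟫) := by
  unfold PD.refl
  rw [inner_add_right, inner_smul_right, re_inner_self]; ring

theorem re_refl_refl (i : Fin m) (x : E d) : P.refl i (P.refl i x) = x := by
  change P.refl i x + (2 * (P.b i - ⟪P.ν i, P.refl i x⟫)) • P.ν i = x
  rw [re_s_refl]; unfold PD.refl; module

/-- the linear part of the reflection -/
def reL (P : PD d m) (i : Fin m) : E d ≃ₗᵢ[ℝ] E d := ((ℝ ∙ P.ν i)ᗮ).reflection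

theorem reL_apply (i : Fin m) (v : E d) : reL P i v = v - (2 * ⟪P.ν i, v⟫) • P.ν i := by
  unfold reL
  rw [Submodule.reflection_orthogonal_apply, Submodule.reflection_singleton_apply, P.unit]
  simp only [RCLike.ofReal_real_eq_id, id_eq, one_pow, div_one]
  module

theorem re_refl_eq (i : Fin m) (x : E d) : P.refl i x = reL P i x + (2 * P.b i) • P.ν i := by
  rw [reL_apply]; unfold PD.refl; module

theorem re_sub (i : Fin m) (x y : E d) : P.refl i x - P.refl i y = reL P i (x - y) := by
  rw [re_refl_eq, re_refl_eq, map_sub]; abel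

theorem re_norm_sub (i : Fin m) (x y : E d) : ‖P.refl i x - P.refl i y‖ = ‖x - y‖ := by
  rw [re_sub]; exact (reL P i).norm_map _

theorem re_fix {i : Fin m} {q : E d} (hq : i ∈ P.A q) : P.refl i q = q := by
  unfold PD.refl
  rw [show ⟪P.ν i, q⟫ = P.b i from hq]; simp

theorem re_ball {i : Fin m} {q : E d} (hq : i ∈ P.A q) {R : ℝ} (x : E d) :
    P.refl i x ∈ ball q R ↔ x ∈ ball q R := by
  rw [mem_ball, mem_ball, dist_eq_norm, dist_eq_norm]
  conv_lhs => rw [← re_fix hq]
  rw [re_norm_sub]

theorem re_continuous (i : Fin m) : Continuous (P.refl i) := by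
  unfold PD.refl; fun_prop

theorem re_contDiff (i : Fin m) {n : WithTop ℕ∞} : ContDiff ℝ n (P.refl i) := by
  have : P.refl i = fun x => reL P i x + (2 * P.b i) • P.ν i := by
    funext x; exact re_refl_eq i x
  rw [this]
  exact (reL P i).contDiff.add contDiff_const

theorem re_hasFDerivAt (i : Fin m) (x : E d) :
    HasFDerivAt (P.refl i) ((reL P i).toContinuousLinearEquiv : E d →L[ℝ] E d) x := by
  have : P.refl i = fun x => (reL P i).toContinuousLinearEquiv x + (2 * P.b i) • P.ν i := by
    funext x; exact re_refl_eq i x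
  rw [this]
  exact ((reL P i).toContinuousLinearEquiv.hasFDerivAt).add_const _

/-- the reflection as a homeomorphism -/
def reH (P : PD d m) (i : Fin m) : E d ≃ₜ E d where
  toFun := P.refl i
  invFun := P.refl i
  left_inv := re_refl_refl i
  right_inv := re_refl_refl i
  continuous_toFun := re_continuous i
  continuous_invFun := re_continuous i

theorem re_mp (i : Fin m) : MeasurePreserving (P.refl i) volume volume := by
  have h1 : MeasurePreserving (reL P i) volume volume := (reL P i).measurePreserving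
  have h2 := measurePreserving_add_right (volume : Measure (E d)) ((2 * P.b i) • P.ν i)
  have h3 := h2.comp h1
  convert h3 using 1
  funext x; exact re_refl_eq i x

theorem re_emb (i : Fin m) : MeasurableEmbedding (P.refl i) := (reH P i).measurableEmbedding

theorem re_integral (i : Fin m) (f : E d → ℝ) : ∫ x, f (P.refl i x) = ∫ x, f x :=
  (re_mp i).integral_comp (re_emb i) f

/-! ### pd of compositions -/

theorem re_pd_comp (i : Fin m) {φ : E d → ℝ} (hφ : Differentiable ℝ φ) (e x : E d) :
    pd e (fun y => φ (P.refl i y)) x = pd (reL P i e) φ (P.refl i x) := by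
  unfold pd
  have h := ((hφ (P.refl i x)).hasFDerivAt.comp x (re_hasFDerivAt i x)).fderiv
  change fderiv ℝ (φ ∘ P.refl i) x e = _
  rw [h]; rfl

theorem re_pd_contDiff {φ : E d → ℝ} (hφ : ContDiff ℝ ∞ φ) (e : E d) : ContDiff ℝ ∞ (pd e φ) := by
  unfold pd
  exact (hφ.fderiv_right (m := ∞) (by simp)).clm_apply contDiff_const

theorem re_lap_comp (i : Fin m) {φ : E d → ℝ} (hφ : ContDiff ℝ ∞ φ) (x : E d) :
    lap (fun y => φ (P.refl i y)) x = lap φ (P.refl i x) := by
  have h1 : lap φ (P.refl i x) = ∑ k, pd (((EuclideanSpace.basisFun (Fin d) ℝ).map (reL P i)) k)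
      (pd (((EuclideanSpace.basisFun (Fin d) ℝ).map (reL P i)) k) φ) (P.refl i x) :=
    lap_onb (contDiff_infty.1 hφ 2).contDiffAt _
  rw [h1]
  unfold lap
  refine Finset.sum_congr rfl fun k _ => ?_
  have h2 : (((EuclideanSpace.basisFun (Fin d) ℝ).map (reL P i)) k) = reL P i (bv k) := by
    simp [bv]
  rw [h2]
  have h3 : pd (bv k) (fun y => φ (P.refl i y)) =
      fun y => pd (reL P i (bv k)) φ (P.refl i y) := by
    funext y; exact re_pd_comp i (hφ.differentiable (by simp)) _ _
  rw [h3]
  exact re_pd_comp i ((re_pd_contDiff hφ _).differentiable (by simp)) _ _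

/-! ### gradients, supports -/

theorem re_grad_inner (f : E d → ℝ) (x v : E d) : ⟪gradient f x, v⟫ = pd v f x := by
  unfold gradient pd
  rw [InnerProductSpace.toDual_symm_apply]

theorem re_inner_sum (f g : E d → ℝ) (x : E d) :
    ⟪gradient f x, gradient g x⟫ = ∑ j, pd (bv j) f x * pd (bv j) g x := by
  rw [← (EuclideanSpace.basisFun (Fin d) ℝ).sum_inner_mul_inner]
  refine Finset.sum_congr rfl fun j _ => ?_
  rw [re_grad_inner, real_inner_comm, re_grad_inner]
  simp [bv]

theorem re_sum_inner (n : E d) (g : E d → ℝ) (x : E d) :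
    ∑ j, ⟪n, bv j⟫ * pd (bv j) g x = pd n g x := by
  have h := (EuclideanSpace.basisFun (Fin d) ℝ).sum_repr' n
  conv_rhs => rw [← h]
  unfold pd
  rw [map_sum]
  refine Finset.sum_congr rfl fun j _ => ?_
  rw [map_smul, smul_eq_mul, real_inner_comm]
  simp [bv]

theorem re_pd_zero {Φ : E d → ℝ} {x : E d} (hx : x ∉ tsupport Φ) (e : E d) :
    pd e Φ =ᶠ[𝓝 x] 0 := by
  have h1 : Φ =ᶠ[𝓝 x] 0 := notMem_tsupport_iff_eventuallyEq.1 hx
  filter_upwards [h1.eventuallyEq_nhds] with y hy
  unfold pd
  rw [hy.fderiv_eq]; simp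

theorem re_pd_pd_zero {Φ : E d → ℝ} {x : E d} (hx : x ∉ tsupport Φ) (e e' : E d) :
    pd e' (pd e Φ) x = 0 := by
  have h := re_pd_zero hx e
  unfold pd at h ⊢
  rw [h.fderiv_eq]; simp

theorem re_lap_zero {Φ : E d → ℝ} {x : E d} (hx : x ∉ tsupport Φ) : lap Φ x = 0 := by
  unfold lap
  exact Finset.sum_eq_zero fun j _ => re_pd_pd_zero hx _ _

theorem re_lap_continuous {Φ : E d → ℝ} (h : ContDiff ℝ ∞ Φ) : Continuous (lap Φ) := by
  unfold lap
  exact continuous_finsetSum _ fun j _ => (re_pd_contDiff (re_pd_contDiff h _) _).continuous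

theorem re_L1 {G : Type*} [NormedAddCommGroup G] {S : Set (E d)} (hS : volume S < ⊤)
    {F : E d → G} (hm : AEStronglyMeasurable F (volume.restrict S))
    (h : IntegrableOn (fun x => ‖F x‖ ^ 2) S) : IntegrableOn F S := by
  have : IsFiniteMeasure (volume.restrict S) := ⟨by simpa using hS⟩
  exact ((memLp_two_iff_integrable_sq_norm hm).2 h).integrable (by norm_num)

theorem re_kappa : ∃ M, 0 ≤ M ∧ (∀ t : ℝ, |deriv Real.smoothTransition t| ≤ M) ∧
    (∀ t : ℝ, 1 < t → deriv Real.smoothTransition t = 0) ∧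
    (∀ t : ℝ, t < 0 → deriv Real.smoothTransition t = 0) := by
  have hcont : Continuous (deriv Real.smoothTransition) :=
    (Real.smoothTransition.contDiff (n := 1)).continuous_deriv le_rfl
  have h1 : ∀ t : ℝ, 1 < t → deriv Real.smoothTransition t = 0 := by
    intro t ht
    have : Real.smoothTransition =ᶠ[𝓝 t] fun _ => (1 : ℝ) := by
      filter_upwards [lt_mem_nhds ht] with y hy
      exact Real.smoothTransition.one_of_one_le hy.le
    rw [this.deriv_eq]; simp
  have h0 : ∀ t : ℝ, t < 0 → deriv Real.smoothTransition t = 0 := by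
    intro t ht
    have : Real.smoothTransition =ᶠ[𝓝 t] fun _ => (0 : ℝ) := by
      filter_upwards [gt_mem_nhds ht] with y hy
      exact Real.smoothTransition.zero_of_nonpos hy.le
    rw [this.deriv_eq]; simp
  obtain ⟨M, hM⟩ := (isCompact_Icc (a := (0 : ℝ)) (b := 1)).exists_bound_of_continuousOn
    hcont.continuousOn
  have hM0 : 0 ≤ M := (norm_nonneg _).trans (hM 0 (by simp))
  refine ⟨M, hM0, fun t => ?_, h1, h0⟩
  rcases lt_or_ge t 0 with ht | ht
  · rw [h0 t ht]; simpa using hM0
  · rcases lt_or_ge 1 t with ht' | ht'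
    · rw [h1 t ht']; simpa using hM0
    · exact hM t ⟨ht, ht'⟩

/-! ### integration by parts with a cutoff near the facet -/

/-- the cutoff `κ((b_i - ⟪ν_i,x⟫)/ε - 1)` -/
def reκ (P : PD d m) (i : Fin m) (ε : ℝ) (x : E d) : ℝ :=
  Real.smoothTransition ((P.b i - ⟪P.ν i, x⟫) / ε - 1)

theorem reκ_contDiff (i : Fin m) (ε : ℝ) {n : ℕ∞} : ContDiff ℝ n (reκ P i ε) := by
  unfold reκ
  apply Real.smoothTransition.contDiff.comp
  apply ContDiff.sub _ contDiff_const
  apply ContDiff.div_const
  exact contDiff_const.sub (contDiff_const.inner ℝ contDiff_id)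

theorem reκ_pd (i : Fin m) (ε : ℝ) (x v : E d) :
    pd v (reκ P i ε) x = -(deriv Real.smoothTransition ((P.b i - ⟪P.ν i, x⟫) / ε - 1) / ε)
      * ⟪P.ν i, v⟫ := by
  have h1 : HasFDerivAt (fun x : E d => (P.b i - ⟪P.ν i, x⟫) / ε - 1)
      (ε⁻¹ • -(innerSL ℝ (P.ν i))) x := by
    have h2 : HasFDerivAt (fun x : E d => ⟪P.ν i, x⟫) (innerSL ℝ (P.ν i)) x :=
      (innerSL ℝ (P.ν i)).hasFDerivAt
    have h3 := ((h2.const_sub (P.b i)).const_mul ε⁻¹).sub_const 1
    have e1 : (fun x : E d => (P.b i - ⟪P.ν i, x⟫) / ε - 1) =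
        fun x => ε⁻¹ * (P.b i - ⟪P.ν i, x⟫) - 1 := by funext y; ring
    rw [e1]
    exact h3
  have h4 : HasDerivAt Real.smoothTransition
      (deriv Real.smoothTransition ((P.b i - ⟪P.ν i, x⟫) / ε - 1))
      ((P.b i - ⟪P.ν i, x⟫) / ε - 1) :=
    (((Real.smoothTransition.contDiff (n := 1)).differentiable (by simp)) _).hasDerivAt
  have h5 := (h4.comp_hasFDerivAt x h1).fderiv
  unfold pd
  change fderiv ℝ (Real.smoothTransition ∘ fun x : E d => (P.b i - ⟪P.ν i, x⟫) / ε - 1) x v = _
  rw [h5]
  simp only [_root_.smul_apply, _root_.neg_apply, innerSL_apply_apply, smul_eq_mul]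
  ring

theorem re_step {q : E d} {i : Fin m} {R : ℝ} {w : E d → ℝ} (hC : P.Con q R)
    (hA : P.A q = {i}) (hw : ContDiffOn ℝ ∞ w (P.Om ∩ ball q R)) {Φ : E d → ℝ}
    (hΦ : ContDiff ℝ ∞ Φ) (hc : HasCompactSupport Φ) (hs : tsupport Φ ⊆ ball q R)
    {ε : ℝ} (hε : 0 < ε) :
    ∫ x in P.Om, (reκ P i ε x * (⟪gradient w x, gradient Φ x⟫ + w x * lap Φ x) -
      w x * (deriv Real.smoothTransition ((P.b i - ⟪P.ν i, x⟫) / ε - 1) / ε *
        pd (P.ν i) Φ x)) = 0 := by
  set F : Fin d → E d → ℝ := fun j x => reκ P i ε x * (w x * pd (bv j) Φ x) with hF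
  have hopen : IsOpen (P.Om ∩ ball q R) := P.isOpen_Om.inter isOpen_ball
  have hmem : ∀ x ∈ ball q R, x ∉ P.Om → P.b i - ⟪P.ν i, x⟫ ≤ 0 := by
    intro x hx hxO
    by_contra hn
    push Not at hn
    apply hxO
    rw [hC.mem_Om_iff hx]
    intro k hk
    rw [hA] at hk
    have hk' : k = i := hk
    subst hk'
    have hq : ⟪P.ν k, q⟫ = P.b k := by
      have : k ∈ P.A q := by rw [hA]; rfl
      exact this
    rw [inner_sub_right, hq]; linarith
  -- away from `Om ∩ ball` the function vanishes locally
  have hloc : ∀ j x, x ∉ P.Om ∩ ball q R → F j =ᶠ[𝓝 x] 0 := by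
    intro j x hx
    by_cases hxB : x ∈ ball q R
    · have hxO : x ∉ P.Om := fun h => hx ⟨h, hxB⟩
      have h1 := hmem x hxB hxO
      have h2 : ∀ᶠ y in 𝓝 x, P.b i - ⟪P.ν i, y⟫ < ε := by
        have : Continuous fun y : E d => P.b i - ⟪P.ν i, y⟫ := by fun_prop
        exact this.continuousAt.eventually_lt continuousAt_const (by linarith)
      filter_upwards [h2] with y hy
      have : reκ P i ε y = 0 := by
        unfold reκ
        apply Real.smoothTransition.zero_of_nonpos
        rw [sub_nonpos, div_le_one hε]; exact hy.le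
      simp [hF, this]
    · have h1 : x ∉ tsupport Φ := fun h => hxB (hs h)
      filter_upwards [re_pd_zero h1 (bv j)] with y hy
      simp [hF, hy]
  have hF1 : ∀ j, ContDiff ℝ 1 (F j) := by
    intro j
    rw [contDiff_iff_contDiffAt]
    intro x
    by_cases hx : x ∈ P.Om ∩ ball q R
    · have h1 : ContDiffAt ℝ 1 w x :=
        ((hw.of_le (by simp)).contDiffAt (hopen.mem_nhds hx))
      exact (reκ_contDiff i ε (n := 1)).contDiffAt.mul
        (h1.mul ((re_pd_contDiff hΦ (bv j)).of_le (by simp)).contDiffAt)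
    · exact contDiffAt_const.congr_of_eventuallyEq (hloc j x hx)
  have hFc : ∀ j, HasCompactSupport (F j) := by
    intro j
    apply HasCompactSupport.intro (K := tsupport Φ) hc
    intro x hx
    have := (re_pd_zero hx (bv j)).eq_of_nhds
    simp [hF, this]
  have hint : ∀ j, Integrable fun x => fderiv ℝ (F j) x (bv j) := by
    intro j
    have hcd : Continuous fun x => fderiv ℝ (F j) x (bv j) :=
      ((hF1 j).continuous_fderiv (by simp)).clm_apply continuous_const
    exact hcd.integrable_of_hasCompactSupport (((hFc j).fderiv ℝ).comp_left (g := fun L : E d →L[ℝ] ℝ => L (bv j)) (by simp))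
  have hz : ∀ j, ∫ x, fderiv ℝ (F j) x (bv j) = 0 := by
    intro j
    have h := integral_mul_fderiv_eq_neg_fderiv_mul_of_integrable (μ := (volume : Measure (E d)))
      (f := fun _ => (1 : ℝ)) (g := F j) (v := bv j) (by simp) (by simpa using hint j)
      (by simpa using (hF1 j).continuous.integrable_of_hasCompactSupport (hFc j))
      (fun x _ => by simp) (fun x _ => (hF1 j).differentiable (by simp) x)
    simpa using h
  have hsum : ∫ x, ∑ j, fderiv ℝ (F j) x (bv j) = 0 := by
    rw [integral_finsetSum _ fun j _ => hint j]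
    exact Finset.sum_eq_zero fun j _ => hz j
  rw [← integral_indicator P.measurableSet_Om]
  rw [← hsum]
  congr 1
  funext x
  by_cases hx : x ∈ P.Om ∩ ball q R
  · rw [indicator_of_mem hx.1]
    have hwx : DifferentiableAt ℝ w x :=
      ((hw.of_le (n := ∞) (m := 1) (by simp)).contDiffAt (hopen.mem_nhds hx)).differentiableAt
        (by simp)
    have hκx : DifferentiableAt ℝ (reκ P i ε) x :=
      (reκ_contDiff i ε (n := 1)).differentiable (by simp) x
    have hterm : ∀ j, fderiv ℝ (F j) x (bv j) =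
        reκ P i ε x * (pd (bv j) w x * pd (bv j) Φ x + w x * pd (bv j) (pd (bv j) Φ) x) -
        w x * (deriv Real.smoothTransition ((P.b i - ⟪P.ν i, x⟫) / ε - 1) / ε *
          (⟪P.ν i, bv j⟫ * pd (bv j) Φ x)) := by
      intro j
      have hpx : DifferentiableAt ℝ (pd (bv j) Φ) x :=
        (re_pd_contDiff hΦ (bv j)).differentiable (by simp) x
      have h1 : fderiv ℝ (F j) x = _ := fderiv_fun_mul hκx (hwx.mul hpx)
      have h2 := fderiv_fun_mul hwx hpx
      have h3 := reκ_pd (P := P) i ε x (bv j)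
      rw [h1]
      simp only [_root_.add_apply, _root_.smul_apply, smul_eq_mul]
      change reκ P i ε x * (fderiv ℝ (fun x => w x * pd (bv j) Φ x) x (bv j)) +
        w x * pd (bv j) Φ x * (pd (bv j) (reκ P i ε) x) = _
      rw [h2, h3]
      simp only [_root_.add_apply, _root_.smul_apply, smul_eq_mul]
      unfold pd
      ring
    rw [Finset.sum_congr rfl fun j _ => hterm j, Finset.sum_sub_distrib, ← Finset.mul_sum,
      ← Finset.mul_sum, ← Finset.mul_sum, Finset.sum_add_distrib, ← re_inner_sum, re_sum_inner,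
      ← Finset.mul_sum]
    rfl
  · have h0 : ∀ j, fderiv ℝ (F j) x (bv j) = 0 := by
      intro j
      rw [(hloc j x hx).fderiv_eq]; simp
    rw [Finset.sum_eq_zero fun j _ => h0 j]
    by_cases hxO : x ∈ P.Om
    · rw [indicator_of_mem hxO]
      have h1 : x ∉ tsupport Φ := fun h => hx ⟨hxO, hs h⟩
      have h2 : ⟪gradient w x, gradient Φ x⟫ = 0 := by
        rw [re_inner_sum]
        exact Finset.sum_eq_zero fun j _ => by
          rw [(re_pd_zero h1 (bv j)).eq_of_nhds]; simp
      rw [h2, re_lap_zero h1, (re_pd_zero h1 (P.ν i)).eq_of_nhds]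
      simp
    · rw [indicator_of_notMem hxO]

theorem re_grad_contOn {f : E d → ℝ} {S : Set (E d)} (hS : IsOpen S) {n : WithTop ℕ∞}
    (hn : 1 ≤ n) (h : ContDiffOn ℝ n f S) : ContinuousOn (gradient f) S := by
  unfold gradient
  exact ((InnerProductSpace.toDual ℝ (E d)).symm.continuous.comp_continuousOn
    (h.continuousOn_fderiv_of_isOpen hS hn))

theorem re_int_w {V : Set (E d)} {w : E d → ℝ} (h : NH P V w) {K : Set (E d)}
    (hK : IsCompact K) (hs : K ⊆ V) : IntegrableOn w (P.Om ∩ K) := by
  have hm : MeasurableSet (P.Om ∩ K) := P.measurableSet_Om.inter hK.measurableSet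
  refine re_L1 ((measure_mono inter_subset_left).trans_lt P.volume_lt_top)
    ((h.sm.continuousOn.mono (inter_subset_inter_right _ hs)).aestronglyMeasurable hm) ?_
  simpa using h.l2 K hs hK

theorem re_int_gw {V : Set (E d)} (hV : IsOpen V) {w : E d → ℝ} (h : NH P V w) {K : Set (E d)}
    (hK : IsCompact K) (hs : K ⊆ V) : IntegrableOn (gradient w) (P.Om ∩ K) := by
  have hm : MeasurableSet (P.Om ∩ K) := P.measurableSet_Om.inter hK.measurableSet
  refine re_L1 ((measure_mono inter_subset_left).trans_lt P.volume_lt_top)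
    (((re_grad_contOn (P.isOpen_Om.inter hV) (by simp) h.sm).mono
      (inter_subset_inter_right _ hs)).aestronglyMeasurable hm) ?_
  exact h.gl2 K hs hK

theorem re_adm {V : Set (E d)} {Φ : E d → ℝ} (hΦ : ContDiff ℝ ∞ Φ) (hc : HasCompactSupport Φ)
    (hs : tsupport Φ ⊆ V) : Adm P V Φ where
  c1 := (hΦ.of_le (by simp)).contDiffOn
  bdd := by
    obtain ⟨M, hM⟩ := hc.exists_bound_of_continuous hΦ.continuous
    exact ⟨M, fun x _ => hM x⟩
  l2 := by
    have h1 : Continuous (gradient Φ) := by
      rw [← continuousOn_univ]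
      exact re_grad_contOn isOpen_univ (n := ∞) (by simp) hΦ.contDiffOn
    have h2 : Continuous fun x => ‖gradient Φ x‖ ^ 2 := by fun_prop
    refine (h2.integrable_of_hasCompactSupport ?_).integrableOn
    apply HasCompactSupport.intro (K := tsupport Φ) hc
    intro x hx
    have : gradient Φ x = 0 := by
      unfold gradient
      rw [(notMem_tsupport_iff_eventuallyEq.1 hx).fderiv_eq]; simp
    simp [this]
  supp := ⟨tsupport Φ, hs, hc, fun x _ hx => image_eq_zero_of_notMem_tsupport hx⟩

theorem re_ibp {q : E d} {i : Fin m} {R : ℝ} {w : E d → ℝ} (hC : P.Con q R)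
    (hA : P.A q = {i}) (h : NH P (ball q R) w) {Φ : E d → ℝ}
    (hΦ : ContDiff ℝ ∞ Φ) (hc : HasCompactSupport Φ) (hs : tsupport Φ ⊆ ball q R)
    {C0 : ℝ} (hodd : ∀ x, |pd (P.ν i) Φ x| ≤ C0 * |P.b i - ⟪P.ν i, x⟫|) :
    ∫ x in P.Om, w x * lap Φ x = 0 := by
  set K := tsupport Φ with hKdef
  have hK : IsCompact K := hc
  have hKm : MeasurableSet K := hK.measurableSet
  have hm : MeasurableSet (P.Om ∩ K) := P.measurableSet_Om.inter hKm
  have hweak := h.weak Φ (re_adm hΦ hc hs)
  have hgΦ : Continuous (gradient Φ) := by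
    rw [← continuousOn_univ]
    exact re_grad_contOn isOpen_univ (n := ∞) (by simp) hΦ.contDiffOn
  have hgz : ∀ x, x ∉ K → gradient Φ x = 0 := by
    intro x hx
    unfold gradient
    rw [(notMem_tsupport_iff_eventuallyEq.1 hx).fderiv_eq]; simp
  have hlz : ∀ x, x ∉ K → lap Φ x = 0 := fun x hx => re_lap_zero hx
  have hpz : ∀ x, x ∉ K → pd (P.ν i) Φ x = 0 := fun x hx => (re_pd_zero hx _).eq_of_nhds
  have hw1 := re_int_w h hK hs
  have hw2 := re_int_gw isOpen_ball h hK hs
  obtain ⟨C1, hC1⟩ := (HasCompactSupport.intro (K := K) hK hgz).exists_bound_of_continuous hgΦ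
  obtain ⟨C2, hC2⟩ := (HasCompactSupport.intro (K := K) hK hlz).exists_bound_of_continuous
    (re_lap_continuous hΦ)
  have i1 : IntegrableOn (fun x => ⟪gradient w x, gradient Φ x⟫) P.Om := by
    apply IntegrableOn.of_forall_sdiff_eq_zero (s := P.Om ∩ K) _ P.measurableSet_Om
    · intro x hx
      have : x ∉ K := fun hk => hx.2 ⟨hx.1, hk⟩
      rw [hgz x this, inner_zero_right]
    · refine Integrable.mono' (hw2.norm.mul_const C1)
        (hw2.aestronglyMeasurable.inner hgΦ.aestronglyMeasurable) ?_
      filter_upwards with x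
      exact (norm_inner_le_norm _ _).trans (mul_le_mul_of_nonneg_left (hC1 x) (norm_nonneg _))
  have i2 : IntegrableOn (fun x => w x * lap Φ x) P.Om := by
    apply IntegrableOn.of_forall_sdiff_eq_zero (s := P.Om ∩ K) _ P.measurableSet_Om
    · intro x hx
      have : x ∉ K := fun hk => hx.2 ⟨hx.1, hk⟩
      rw [hlz x this, mul_zero]
    · refine Integrable.mono' (hw1.norm.mul_const C2)
        (hw1.aestronglyMeasurable.mul (re_lap_continuous hΦ).aestronglyMeasurable) ?_
      filter_upwards with x
      rw [norm_mul]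
      exact mul_le_mul_of_nonneg_left (hC2 x) (norm_nonneg _)
  have i3 : IntegrableOn (K.indicator w) P.Om := by
    apply IntegrableOn.of_forall_sdiff_eq_zero (s := P.Om ∩ K) _ P.measurableSet_Om
    · intro x hx
      have : x ∉ K := fun hk => hx.2 ⟨hx.1, hk⟩
      rw [indicator_of_notMem this]
    · refine hw1.congr_fun ?_ hm
      intro x hx
      rw [indicator_of_mem hx.2]
  obtain ⟨M, hM0, hM, hM1, hM2⟩ := re_kappa
  have hdc : Continuous (deriv Real.smoothTransition) :=
    (Real.smoothTransition.contDiff (n := 1)).continuous_deriv le_rfl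
  have hC0 : 0 ≤ C0 ∨ ∀ x, pd (P.ν i) Φ x = 0 := by
    by_cases h0 : 0 ≤ C0
    · exact Or.inl h0
    · right
      intro x
      have h1 := hodd x
      have h2 : C0 * |P.b i - ⟪P.ν i, x⟫| ≤ 0 :=
        mul_nonpos_of_nonpos_of_nonneg (not_le.1 h0).le (abs_nonneg _)
      exact abs_eq_zero.1 (le_antisymm (h1.trans h2) (abs_nonneg _))
  have hs0 : ∀ x ∈ P.Om, 0 < P.b i - ⟪P.ν i, x⟫ := fun x hx => by linarith [hx i]
  set H : ℕ → E d → ℝ := fun n x =>
    reκ P i (1 / ((n : ℝ) + 1)) x * (⟪gradient w x, gradient Φ x⟫ + w x * lap Φ x) -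
      w x * (deriv Real.smoothTransition ((P.b i - ⟪P.ν i, x⟫) / (1 / ((n : ℝ) + 1)) - 1) /
        (1 / ((n : ℝ) + 1)) * pd (P.ν i) Φ x) with hH
  have hε : ∀ n : ℕ, (0 : ℝ) < 1 / ((n : ℝ) + 1) := fun n => by positivity
  have hHn : ∀ n, ∫ x in P.Om, H n x = 0 := fun n => re_step hC hA h.sm hΦ hc hs (hε n)
  have hlim : Tendsto (fun n => ∫ x in P.Om, H n x) atTop
      (𝓝 (∫ x in P.Om, (⟪gradient w x, gradient Φ x⟫ + w x * lap Φ x))) := by
    refine tendsto_integral_of_dominated_convergence
      (fun x => |⟪gradient w x, gradient Φ x⟫ + w x * lap Φ x| +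
        |K.indicator w x| * (2 * M * |C0|)) ?_ ?_ ?_ ?_
    · intro n
      have e1 : H n = fun x =>
          reκ P i (1 / ((n : ℝ) + 1)) x * (⟪gradient w x, gradient Φ x⟫ + w x * lap Φ x) -
          K.indicator w x *
            (deriv Real.smoothTransition ((P.b i - ⟪P.ν i, x⟫) / (1 / ((n : ℝ) + 1)) - 1) /
            (1 / ((n : ℝ) + 1)) * pd (P.ν i) Φ x) := by
        funext x
        by_cases hx : x ∈ K
        · simp only [hH, indicator_of_mem hx]
        · simp only [hH, hpz x hx, mul_zero]
      rw [e1]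
      have c1 : Continuous fun x : E d =>
          deriv Real.smoothTransition ((P.b i - ⟪P.ν i, x⟫) / (1 / ((n : ℝ) + 1)) - 1) /
            (1 / ((n : ℝ) + 1)) * pd (P.ν i) Φ x := by
        refine Continuous.mul (Continuous.div_const (hdc.comp ?_) _)
          (re_pd_contDiff hΦ _).continuous
        fun_prop
      exact (((reκ_contDiff i _ (n := 1)).continuous.aestronglyMeasurable).mul
        (i1.add i2).aestronglyMeasurable).sub
          (i3.aestronglyMeasurable.mul c1.aestronglyMeasurable)
    · exact (i1.add i2).abs.add (i3.abs.mul_const _)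
    · intro n
      filter_upwards [ae_restrict_mem P.measurableSet_Om] with x hx
      have hκ : |reκ P i (1 / ((n : ℝ) + 1)) x| ≤ 1 := by
        unfold reκ
        rw [abs_of_nonneg (Real.smoothTransition.nonneg _)]
        exact Real.smoothTransition.le_one _
      have h2 : |w x * (deriv Real.smoothTransition
          ((P.b i - ⟪P.ν i, x⟫) / (1 / ((n : ℝ) + 1)) - 1) /
          (1 / ((n : ℝ) + 1)) * pd (P.ν i) Φ x)| ≤ |K.indicator w x| * (2 * M * |C0|) := by
        by_cases hxK : x ∈ K
        · rw [indicator_of_mem hxK, abs_mul]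
          refine mul_le_mul_of_nonneg_left ?_ (abs_nonneg _)
          set ε : ℝ := 1 / ((n : ℝ) + 1) with hεd
          have hεp : 0 < ε := hε n
          set sx := P.b i - ⟪P.ν i, x⟫ with hsx
          have hsp : 0 < sx := hs0 x hx
          by_cases hbig : 1 < sx / ε - 1
          · rw [hM1 _ hbig]; simp; positivity
          · push Not at hbig
            have h3 : sx ≤ 2 * ε := by
              have : sx / ε ≤ 2 := by linarith
              rwa [div_le_iff₀ hεp] at this
            rw [abs_mul, abs_div, abs_of_pos hεp]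
            have h4 : |pd (P.ν i) Φ x| ≤ |C0| * (2 * ε) := by
              refine (hodd x).trans ?_
              rw [← hsx, abs_of_pos hsp]
              exact (mul_le_mul_of_nonneg_right (le_abs_self _) hsp.le).trans
                (mul_le_mul_of_nonneg_left h3 (abs_nonneg _))
            calc |deriv Real.smoothTransition (sx / ε - 1)| / ε * |pd (P.ν i) Φ x|
                ≤ M / ε * (|C0| * (2 * ε)) := by
                  refine mul_le_mul ?_ h4 (abs_nonneg _) (by positivity)
                  exact div_le_div_of_nonneg_right (hM _) hεp.le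
              _ = 2 * M * |C0| := by field_simp
        · rw [hpz x hxK]; simp; positivity
      have h1 : |reκ P i (1 / ((n : ℝ) + 1)) x *
          (⟪gradient w x, gradient Φ x⟫ + w x * lap Φ x)| ≤
          |⟪gradient w x, gradient Φ x⟫ + w x * lap Φ x| := by
        rw [abs_mul]
        exact mul_le_of_le_one_left (abs_nonneg _) hκ
      rw [Real.norm_eq_abs]
      exact (abs_sub _ _).trans (add_le_add h1 h2)
    · filter_upwards [ae_restrict_mem P.measurableSet_Om] with x hx
      have hsp := hs0 x hx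
      have h1 : ∀ᶠ n : ℕ in atTop, 1 / ((n : ℝ) + 1) < (P.b i - ⟪P.ν i, x⟫) / 2 :=
        (tendsto_one_div_add_atTop_nhds_zero_nat (𝕜 := ℝ)).eventually_lt_const (by positivity)
      refine tendsto_const_nhds.congr' ?_
      filter_upwards [h1] with n hn
      have hn' : 1 < (P.b i - ⟪P.ν i, x⟫) / (1 / ((n : ℝ) + 1)) - 1 := by
        have := hε n
        rw [lt_sub_iff_add_lt, lt_div_iff₀ this]; linarith
      simp only [hH, reκ]
      rw [hM1 _ hn', Real.smoothTransition.one_of_one_le hn'.le]
      simp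
  have h0 : ∫ x in P.Om, (⟪gradient w x, gradient Φ x⟫ + w x * lap Φ x) = 0 := by
    refine tendsto_nhds_unique hlim ?_
    simp only [hHn]; exact tendsto_const_nhds
  rw [integral_add i1 i2, hweak, zero_add] at h0
  exact h0

/-! ### the reflected function -/

theorem re_int_u {q : E d} {R : ℝ} {w : E d → ℝ} (h : NH P (ball q R) w) {g : E d → ℝ}
    (hg : Continuous g) {K : Set (E d)} (hK : IsCompact K) (hs : K ⊆ ball q R)
    (hz : ∀ x, x ∉ K → g x = 0) :
    Integrable (fun x => (P.Om ∩ ball q R).indicator w x * g x) := by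
  have e1 : (fun x => (P.Om ∩ ball q R).indicator w x * g x) =
      (P.Om ∩ K).indicator (fun x => w x * g x) := by
    funext x
    by_cases hxK : x ∈ K
    · by_cases hxO : x ∈ P.Om
      · rw [indicator_of_mem (show x ∈ P.Om ∩ ball q R from ⟨hxO, hs hxK⟩),
          indicator_of_mem (show x ∈ P.Om ∩ K from ⟨hxO, hxK⟩)]
      · rw [indicator_of_notMem (fun h => hxO h.1), indicator_of_notMem (fun h => hxO h.1),
          zero_mul]
    · rw [hz x hxK, mul_zero, indicator_of_notMem (fun h => hxK h.2)]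
  rw [e1, integrable_indicator_iff (P.measurableSet_Om.inter hK.measurableSet)]
  have hw1 := re_int_w h hK hs
  obtain ⟨C2, hC2⟩ := (HasCompactSupport.intro (K := K) hK hz).exists_bound_of_continuous hg
  refine Integrable.mono' (hw1.norm.mul_const C2)
    (hw1.aestronglyMeasurable.mul hg.aestronglyMeasurable) ?_
  filter_upwards with x
  rw [norm_mul]
  exact mul_le_mul_of_nonneg_left (hC2 x) (norm_nonneg _)

/-- **RE.** even reflection across a facet -/
theorem refl_ext {q : E d} {i : Fin m} {R : ℝ} {w : E d → ℝ} (hC : P.Con q R) (hA : P.A q = {i})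
    (h : NH P (ball q R) w) :
    ∃ w' : E d → ℝ, ContDiffOn ℝ ∞ w' (ball q R) ∧ (∀ x ∈ ball q R, lap w' x = 0) ∧
      (∀ x ∈ P.Om ∩ ball q R, w' x = w x) ∧ ∀ x ∈ ball q R, w' (P.refl i x) = w' x := by
  have hiq : i ∈ P.A q := by rw [hA]; rfl
  set B := ball q R with hB
  have hopen : IsOpen (P.Om ∩ B) := P.isOpen_Om.inter isOpen_ball
  set u : E d → ℝ := (P.Om ∩ B).indicator w with hu
  set w0 : E d → ℝ := fun x => u x + u (P.refl i x) with hw0
  have hrB : ∀ x, P.refl i x ∈ B ↔ x ∈ B := fun x => re_ball hiq x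
  -- local integrability
  have hloc : LocallyIntegrableOn w0 B := by
    rw [locallyIntegrableOn_iff isOpen_ball.isLocallyClosed]
    intro K hs hK
    have hu1 : ∀ K' ⊆ B, IsCompact K' → IntegrableOn u K' := by
      intro K' hs' hK'
      have h1 := re_int_w h hK' hs'
      rw [hu, IntegrableOn, integrable_indicator_iff hopen.measurableSet, IntegrableOn,
        Measure.restrict_restrict hopen.measurableSet]
      apply h1.mono_set
      rintro x ⟨hx1, hx2⟩
      exact ⟨hx1.1, hx2⟩
    refine (hu1 K hs hK).add ?_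
    have h2 : K = P.refl i ⁻¹' (P.refl i ⁻¹' K) := by
      ext x; simp only [mem_preimage, re_refl_refl]
    have h3 : IsCompact (P.refl i ⁻¹' K) := (reH P i).isCompact_preimage.2 hK
    have h4 : P.refl i ⁻¹' K ⊆ B := fun x hx => (hrB x).1 (hs hx)
    have h5 := ((re_mp (P := P) i).integrableOn_comp_preimage (re_emb i) (f := u)
      (s := P.refl i ⁻¹' K)).2 (hu1 _ h4 h3)
    rw [← h2] at h5
    exact h5
  -- weak harmonicity
  have hweak : ∀ φ : E d → ℝ, ContDiff ℝ ∞ φ → HasCompactSupport φ → tsupport φ ⊆ B →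
      ∫ x, w0 x * lap φ x = 0 := by
    intro φ hφ hc hs
    set φ' : E d → ℝ := fun x => φ (P.refl i x) with hφ'
    have hφ'1 : ContDiff ℝ ∞ φ' := hφ.comp (re_contDiff i)
    have hc' : HasCompactSupport φ' := hc.comp_homeomorph (reH P i)
    have hs' : tsupport φ' ⊆ B := by
      intro x hx
      have h1 : x ∈ P.refl i ⁻¹' (tsupport φ) :=
        (tsupport_comp_subset_preimage φ (re_continuous i)) hx
      exact (hrB x).1 (hs h1)
    set Φ : E d → ℝ := φ + φ' with hΦ
    have hΦ1 : ContDiff ℝ ∞ Φ := hφ.add hφ'1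
    have hΦc : HasCompactSupport Φ := hc.add hc'
    have hΦs : tsupport Φ ⊆ B := (tsupport_add φ φ').trans (union_subset hs hs')
    have hlapΦ : ∀ x, lap Φ x = lap φ x + lap φ (P.refl i x) := by
      intro x
      rw [← re_lap_comp i hφ x]
      unfold lap
      rw [← Finset.sum_add_distrib]
      refine Finset.sum_congr rfl fun j _ => ?_
      have h1 : pd (bv j) Φ = fun y => pd (bv j) φ y + pd (bv j) φ' y := by
        funext y
        unfold pd
        rw [hΦ, fderiv_add (hφ.differentiable (by simp) y) (hφ'1.differentiable (by simp) y)]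
        rfl
      rw [h1]
      change fderiv ℝ (fun y => pd (bv j) φ y + pd (bv j) φ' y) x (bv j) = _
      rw [fderiv_fun_add ((re_pd_contDiff hφ _).differentiable (by simp) x)
        ((re_pd_contDiff hφ'1 _).differentiable (by simp) x)]
      rfl
    obtain ⟨C0, hC0⟩ := ContDiff.lipschitzWith_of_hasCompactSupport (𝕂 := ℝ) (n := ∞)
      (f := pd (P.ν i) φ) (HasCompactSupport.intro (K := tsupport φ) hc
        fun x hx => (re_pd_zero hx _).eq_of_nhds) (re_pd_contDiff hφ _) (by simp)
    have hodd : ∀ x, |pd (P.ν i) Φ x| ≤ (2 * C0) * |P.b i - ⟪P.ν i, x⟫| := by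
      intro x
      have h1 : pd (P.ν i) Φ x = pd (P.ν i) φ x - pd (P.ν i) φ (P.refl i x) := by
        have h2 : pd (P.ν i) Φ x = pd (P.ν i) φ x + pd (P.ν i) φ' x := by
          unfold pd
          rw [hΦ, fderiv_add (hφ.differentiable (by simp) x) (hφ'1.differentiable (by simp) x)]
          rfl
        rw [h2, hφ', re_pd_comp i (hφ.differentiable (by simp))]
        have h3 : reL P i (P.ν i) = -(P.ν i) := by
          rw [reL_apply, re_inner_self]; module
        rw [h3]
        unfold pd
        rw [map_neg]; ring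
      rw [h1, ← Real.dist_eq]
      refine (hC0.dist_le_mul _ _).trans ?_
      have h4 : dist x (P.refl i x) = 2 * |P.b i - ⟪P.ν i, x⟫| := by
        rw [dist_eq_norm]
        unfold PD.refl
        rw [show x - (x + (2 * (P.b i - ⟪P.ν i, x⟫)) • P.ν i) =
          -((2 * (P.b i - ⟪P.ν i, x⟫)) • P.ν i) by abel, norm_neg, norm_smul, P.unit, mul_one,
          Real.norm_eq_abs, abs_mul]
        norm_num
      rw [h4]
      exact le_of_eq (by ring)
    have hmain := re_ibp hC hA h hΦ1 hΦc hΦs hodd
    have I1 : Integrable fun x => u x * lap φ x :=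
      re_int_u h (re_lap_continuous hφ) hc hs fun x hx => re_lap_zero hx
    have hcr : IsCompact (P.refl i ⁻¹' tsupport φ) := (reH P i).isCompact_preimage.2 hc
    have I2 : Integrable fun x => u x * lap φ (P.refl i x) := by
      refine re_int_u h ((re_lap_continuous hφ).comp (re_continuous i)) hcr
        (fun x hx => (hrB x).1 (hs hx)) ?_
      intro x hx
      exact re_lap_zero (Φ := φ) (x := P.refl i x) hx
    have e2 : ∫ x, u (P.refl i x) * lap φ x = ∫ x, u x * lap φ (P.refl i x) := by
      rw [← re_integral (P := P) i (fun x => u x * lap φ (P.refl i x))]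
      simp only [re_refl_refl]
    have I3 : Integrable fun x => u (P.refl i x) * lap φ x := by
      have := ((re_mp (P := P) i).integrable_comp_emb (re_emb i)).2 I2
      refine this.congr ?_
      filter_upwards with x
      simp only [Function.comp_apply, re_refl_refl]
    calc ∫ x, w0 x * lap φ x = ∫ x, (u x * lap φ x + u (P.refl i x) * lap φ x) := by
          congr 1; funext x; simp only [hw0]; ring
      _ = (∫ x, u x * lap φ x) + ∫ x, u x * lap φ (P.refl i x) := by
          rw [integral_add I1 I3, e2]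
      _ = ∫ x, u x * lap Φ x := by
          rw [← integral_add I1 I2]
          congr 1; funext x; rw [hlapΦ]; ring
      _ = ∫ x in P.Om, w x * lap Φ x := by
          rw [← integral_indicator P.measurableSet_Om]
          congr 1
          funext x
          by_cases hxO : x ∈ P.Om
          · by_cases hxB : x ∈ B
            · rw [hu, indicator_of_mem (show x ∈ P.Om ∩ B from ⟨hxO, hxB⟩), indicator_of_mem hxO]
            · rw [indicator_of_mem hxO, re_lap_zero fun h => hxB (hΦs h), mul_zero, mul_zero]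
          · rw [hu, indicator_of_notMem fun h => hxO h.1, indicator_of_notMem hxO, zero_mul]
      _ = 0 := hmain
  have hd : 0 < d := lt_of_lt_of_le (by norm_num) P.dim
  obtain ⟨g, hg1, hg2, hg3⟩ := weyl hd isOpen_ball w0 hloc hweak
  refine ⟨g, hg1, hg2, ?_, ?_⟩
  · have h1 : g =ᵐ[volume.restrict (P.Om ∩ B)] w := by
      have h2 : ∀ᵐ x ∂(volume.restrict (P.Om ∩ B)), g x = w0 x :=
        ae_restrict_of_ae_restrict_of_subset inter_subset_right hg3
      filter_upwards [h2, ae_restrict_mem hopen.measurableSet] with x hx hxm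
      rw [hx]
      have h3 : P.refl i x ∉ P.Om ∩ B := by
        rintro ⟨h4, -⟩
        have h5 := h4 i
        have h6 := hxm.1 i
        have h7 := re_s_refl (P := P) i x
        linarith
      simp only [hw0, hu]
      rw [indicator_of_mem hxm, indicator_of_notMem h3, add_zero]
    exact Measure.eqOn_open_of_ae_eq h1 hopen (hg1.continuousOn.mono inter_subset_right)
      h.sm.continuousOn
  · have h1 : (fun x => g (P.refl i x)) =ᵐ[volume.restrict B] g := by
      have h2 : MeasurePreserving (P.refl i) (volume.restrict (P.refl i ⁻¹' B))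
        (volume.restrict B) := (re_mp i).restrict_preimage measurableSet_ball
      have h3 : P.refl i ⁻¹' B = B := by ext x; exact hrB x
      rw [h3] at h2
      have h4 := h2.quasiMeasurePreserving.ae hg3
      filter_upwards [h4, hg3] with x hx hx'
      rw [hx, hx']
      simp only [hw0, re_refl_refl]; ring
    have h5 : ContinuousOn (fun x => g (P.refl i x)) B :=
      hg1.continuousOn.comp (re_continuous i).continuousOn fun x hx => (hrB x).2 hx
    exact Measure.eqOn_open_of_ae_eq h1 isOpen_ball h5 hg1.continuousOn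

end

end Pool.Agent.Lib_helper47.Robin
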